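import Mathlib

set_option autoImplicit false

/-!
# Structures and strict surjective homomorphisms
-/

namespace Pool.Agent.Run7.h271.EF

open FirstOrder Set

/-- Structures of the language `L` with universe `X`: the interpretations of the function symbols
and of the relation symbols. -/
abbrev Str (L : FirstOrder.Language.{0, 0}) (X : Type) : Type :=
  ((n : ℕ) → L.Functions n → (Fin n → X) → X) × ((n : ℕ) → L.Relations n → (Fin n → X) → Bool)

/-- `h` is a strict surjective homomorphism from `M` to `N`: it is surjective, commutes with the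
functions, and preserves the relations in both directions. -/
structure Strict {L : FirstOrder.Language.{0, 0}} {X Y : Type} (M : Str L X) (N : Str L Y)
    (h : X → Y) : Prop where
  surj : Function.Surjective h
  fn : ∀ (n : ℕ) (F : L.Functions n) (a : Fin n → X), h (M.1 n F a) = N.1 n F (h ∘ a)
  rel : ∀ (n : ℕ) (R : L.Relations n) (a : Fin n → X), M.2 n R a = N.2 n R (h ∘ a)

variable {L : FirstOrder.Language.{0, 0}}

/-- Isomorphism: a bijective strict homomorphism. -/
def Iso (M N : Str L ℕ) : Prop := ∃ σ : Equiv.Perm ℕ, Strict M N σ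

/-- The class `K` of structures on `ℕ` is closed under images and inverse images for strict
surjective homomorphisms. -/
def StrictClosed (K : Set (Str L ℕ)) : Prop :=
  ∀ (M N : Str L ℕ) (h : ℕ → ℕ), Strict M N h → (M ∈ K ↔ N ∈ K)

theorem strict_comp {X Y Z : Type} {M : Str L X} {N : Str L Y} {P : Str L Z} {h : X → Y}
    {k : Y → Z} (h1 : Strict M N h) (h2 : Strict N P k) : Strict M P (k ∘ h) :=
  ⟨h2.surj.comp h1.surj, fun n F a => by
    show k (h _) = _
    rw [h1.fn, h2.fn]; rfl, fun n R a => by
    rw [h1.rel, h2.rel]; rfl⟩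

theorem strict_symm {X Y : Type} {M : Str L X} {N : Str L Y} {e : X ≃ Y} (h : Strict M N e) :
    Strict N M e.symm := by
  refine ⟨e.symm.surjective, fun n F a => ?_, fun n R a => ?_⟩
  · apply e.injective
    rw [e.apply_symm_apply, h.fn]
    exact congrArg (N.1 n F) (funext fun i => (e.apply_symm_apply _).symm)
  · rw [h.rel]
    exact congrArg (N.2 n R) (funext fun i => (e.apply_symm_apply _).symm)

/-- transport along a bijection -/
def tr {X Y : Type} (e : X ≃ Y) (M : Str L X) : Str L Y :=
  (fun n F a => e (M.1 n F (e.symm ∘ a)), fun n R a => M.2 n R (e.symm ∘ a))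

theorem tr_strict {X Y : Type} (e : X ≃ Y) (M : Str L X) : Strict M (tr e M) e := by
  have h : ∀ (n : ℕ) (a : Fin n → X), e.symm ∘ (e ∘ a) = a := fun n a => by
    funext i
    exact e.symm_apply_apply _
  refine ⟨e.surjective, fun n F a => ?_, fun n R a => ?_⟩
  · show _ = e (M.1 n F _)
    rw [h]
  · show _ = M.2 n R _
    rw [h]

/-- the fibre product -/
theorem cover {K : Set (Str L ℕ)} (hK : StrictClosed K) {I : Type} {M N : Str L ℕ} {Q : Str L I}
    {p r : ℕ → I} (hp : Strict M Q p) (hr : Strict N Q r) (hM : M ∈ K) : N ∈ K := by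
  let P : Type := {z : ℕ × ℕ // p z.1 = r z.2}
  have hs1 : Function.Surjective (fun z : P => z.1.1) := fun a => by
    obtain ⟨b, hb⟩ := hr.surj (p a)
    exact ⟨⟨(a, b), hb.symm⟩, rfl⟩
  have hs2 : Function.Surjective (fun z : P => z.1.2) := fun b => by
    obtain ⟨a, ha⟩ := hp.surj (r b)
    exact ⟨⟨(a, b), ha⟩, rfl⟩
  have hinf : Infinite P := Infinite.of_surjective _ hs1
  obtain ⟨e⟩ : Nonempty (P ≃ ℕ) := nonempty_equiv_of_countable
  let S : Str L P := (fun n F a => ⟨(M.1 n F (fun i => (a i).1.1), N.1 n F (fun i => (a i).1.2)), by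
      show p _ = r _
      rw [hp.fn, hr.fn]
      exact congrArg (Q.1 n F) (funext fun i => (a i).2)⟩,
    fun n R a => M.2 n R (fun i => (a i).1.1))
  have h1 : Strict S M (fun z => z.1.1) := ⟨hs1, fun n F a => rfl, fun n R a => rfl⟩
  have h2 : Strict S N (fun z => z.1.2) := ⟨hs2, fun n F a => rfl, fun n R a => by
    show M.2 n R _ = N.2 n R _
    rw [hp.rel, hr.rel]
    exact congrArg (Q.2 n R) (funext fun i => (a i).2)⟩
  have h3 := strict_symm (tr_strict e S)
  exact (hK _ _ _ (strict_comp h3 h2)).1 ((hK _ _ _ (strict_comp h3 h1)).2 hM)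

theorem iso_mem {K : Set (Str L ℕ)} (hK : StrictClosed K) {M N : Str L ℕ} (h : Iso M N) :
    M ∈ K ↔ N ∈ K := by
  obtain ⟨σ, h⟩ := h
  exact hK _ _ _ h

/-- the structure on `ℕ` over `Q`, for a map `r` with section `s` -/
def pull {I : Type} (Q : Str L I) (r : ℕ → I) (s : I → ℕ) : Str L ℕ :=
  (fun n F a => s (Q.1 n F (r ∘ a)), fun n R a => Q.2 n R (r ∘ a))

theorem pull_strict {I : Type} (Q : Str L I) {r : ℕ → I} {s : I → ℕ} (h : ∀ x, r (s x) = x) :
    Strict (pull Q r s) Q r :=
  ⟨fun x => ⟨s x, h x⟩, fun _ _ _ => h _, fun _ _ _ => rfl⟩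

/-! ### Indistinguishable points -/

/-- no relation distinguishes `x` and `y` -/
def Lz {X : Type} (M : Str L X) (x y : X) : Prop :=
  ∀ (n : ℕ) (R : L.Relations n) (a : Fin n → X) (i : Fin n),
    M.2 n R (Function.update a i x) = M.2 n R (Function.update a i y)

theorem lz_all {X : Type} {M : Str L X} {n : ℕ} (R : L.Relations n) {a b : Fin n → X}
    (h : ∀ i, Lz M (a i) (b i)) : M.2 n R a = M.2 n R b := by
  classical
  have key : ∀ s : Finset (Fin n), M.2 n R (fun i => if i ∈ s then b i else a i) = M.2 n R a := by
    intro s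
    induction s using Finset.induction_on with
    | empty => simp
    | insert j s hj ih =>
      rw [← ih]
      have e1 : (fun i => if i ∈ insert j s then b i else a i) =
          Function.update (fun i => if i ∈ s then b i else a i) j (b j) := by
        funext i
        by_cases hi : i = j
        · subst hi
          simp
        · rw [Function.update_of_ne hi]
          simp [hi]
      have e2 : (fun i => if i ∈ s then b i else a i) =
          Function.update (fun i => if i ∈ s then b i else a i) j (a j) := by
        funext i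
        by_cases hi : i = j
        · subst hi
          simp [hj]
        · rw [Function.update_of_ne hi]
      rw [e1]
      conv_rhs => rw [e2]
      exact (h j n R _ j).symm
  have h1 := key Finset.univ
  simp only [Finset.mem_univ, if_true] at h1
  exact h1.symm

/-- the setoid -/
def lzs {X : Type} (M : Str L X) : Setoid X where
  r := Lz M
  iseqv := ⟨fun _ _ _ _ _ => rfl, fun h n R a i => (h n R a i).symm,
    fun h h' n R a i => (h n R a i).trans (h' n R a i)⟩

theorem lz_iso {M N : Str L ℕ} {σ : Equiv.Perm ℕ} (h : Strict M N σ) (x y : ℕ) :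
    Lz M x y ↔ Lz N (σ x) (σ y) := by
  have key : ∀ {M N : Str L ℕ} {σ : Equiv.Perm ℕ}, Strict M N σ → ∀ x y, Lz M x y →
      Lz N (σ x) (σ y) := by
    intro M N σ h x y hxy n R a i
    have e : ∀ z, Function.update a i (σ z) = σ ∘ Function.update (σ.symm ∘ a) i z := by
      intro z
      funext j
      by_cases hj : j = i
      · subst hj
        simp
      · simp [Function.update_of_ne hj]
    rw [e, e, ← h.rel, ← h.rel]
    exact hxy n R _ i
  refine ⟨key h x y, fun h' => ?_⟩
  have h2 := key (strict_symm h) _ _ h'
  simpa using h2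

/-- no two points are indistinguishable -/
def Red {X : Type} (M : Str L X) : Prop := ∀ x y, Lz M x y → x = y

theorem lz_over {I : Type} {N : Str L ℕ} {Q : Str L I} {r : ℕ → I} (h : Strict N Q r)
    (hQ : Red Q) (x y : ℕ) : Lz N x y ↔ r x = r y := by
  constructor
  · intro hxy
    apply hQ
    intro n R a i
    choose s hs using h.surj
    have e : ∀ z, Function.update a i (r z) = r ∘ Function.update (s ∘ a) i z := by
      intro z
      funext j
      by_cases hj : j = i
      · subst hj
        simp
      · simp [Function.update_of_ne hj, hs]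
    rw [e, e, ← h.rel, ← h.rel]
    exact hxy n R _ i
  · intro hxy n R a i
    rw [h.rel, h.rel]
    refine congrArg (Q.2 n R) (funext fun j => ?_)
    by_cases hj : j = i
    · subst hj
      simp [hxy]
    · simp [Function.update_of_ne hj]

/-- the quotient, if there are no functions of positive arity -/
noncomputable def quo (M : Str L ℕ) : Str L (Quotient (lzs M)) :=
  (fun n F a => ⟦M.1 n F (fun i => (a i).out)⟧, fun n R a => M.2 n R (fun i => (a i).out))

theorem quo_strict (h0 : ∀ n, IsEmpty (L.Functions (n + 1))) (M : Str L ℕ) :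
    Strict M (quo M) (Quotient.mk (lzs M)) := by
  refine ⟨Quotient.mk_surjective, fun n F a => ?_, fun n R a => ?_⟩
  · cases n with
    | zero =>
      show Quotient.mk (lzs M) _ = Quotient.mk (lzs M) _
      exact congrArg _ (congrArg (M.1 0 F) (funext fun i => i.elim0))
    | succ n => exact ((h0 n).false F).elim
  · refine lz_all R fun i => ?_
    exact Setoid.symm' (lzs M) (Quotient.mk_out (s := lzs M) (a i))

theorem quo_red (h0 : ∀ n, IsEmpty (L.Functions (n + 1))) (M : Str L ℕ) : Red (quo M) := by
  intro x y hxy
  induction x using Quotient.inductionOn with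
  | h x =>
    induction y using Quotient.inductionOn with
    | h y =>
      apply Quotient.sound
      intro n R a i
      have h1 := quo_strict h0 M
      rw [h1.rel, h1.rel]
      have e : ∀ z : ℕ, (Quotient.mk (lzs M)) ∘ Function.update a i z =
          Function.update (Quotient.mk (lzs M) ∘ a) i (Quotient.mk (lzs M) z) := by
        intro z
        funext j
        by_cases hj : j = i
        · subst hj
          simp
        · simp [Function.update_of_ne hj]
      rw [e, e]
      exact hxy n R _ i

theorem tr_red {X Y : Type} (e : X ≃ Y) {M : Str L X} (h : Red M) : Red (tr e M) := by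
  intro x y hxy
  apply e.symm.injective
  apply h
  intro n R a i
  have h1 := hxy n R (e ∘ a) i
  have e2 : ∀ z, e.symm ∘ Function.update (e ∘ a) i z = Function.update a i (e.symm z) := by
    intro z
    funext j
    by_cases hj : j = i
    · subst hj
      simp
    · simp [Function.update_of_ne hj]
  change M.2 n R (e.symm ∘ _) = M.2 n R (e.symm ∘ _) at h1
  rw [e2, e2] at h1
  exact h1

end Pool.Agent.Run7.h271.EF
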