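import Pool.Agent.Run7.h271.EF.Base

set_option autoImplicit false

/-!
# Coding by sizes of fibres; languages with a function symbol of positive arity
-/

namespace Pool.Agent.Run7.h271.EF

open FirstOrder Set

variable {L : FirstOrder.Language.{0, 0}}

/-- the fibre of `m + 1` has `2 m + 1` or `2 m + 2` elements -/
def wc (c : ℕ → Bool) (t : ℕ) : ℕ :=
  if t.unpair.2 < 2 * t.unpair.1 + 1 + (c t.unpair.1).toNat then t.unpair.1 + 1 else 0

theorem wc_pair (c : ℕ → Bool) (m l : ℕ) :
    wc c (Nat.pair m l) = if l < 2 * m + 1 + (c m).toNat then m + 1 else 0 := by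
  unfold wc
  rw [Nat.unpair_pair]

theorem wc_fib (c : ℕ → Bool) (m : ℕ) :
    {t | wc c t = m + 1} = (fun l => Nat.pair m l) '' (Set.Iio (2 * m + 1 + (c m).toNat)) := by
  ext t
  simp only [mem_ofPred_eq, mem_image, mem_Iio]
  constructor
  · intro h
    unfold wc at h
    split_ifs at h with h1
    · have h2 : t.unpair.1 = m := by omega
      refine ⟨t.unpair.2, ?_, ?_⟩
      · rw [← h2]; exact h1
      · rw [← h2]; exact Nat.pair_unpair t
  · rintro ⟨l, hl, rfl⟩
    rw [wc_pair, if_pos hl]

theorem wc_card (c : ℕ → Bool) (m : ℕ) :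
    {t | wc c t = m + 1}.ncard = 2 * m + 1 + (c m).toNat := by
  rw [wc_fib, Set.ncard_image_of_injective _ (fun a b h => (Nat.pair_eq_pair.1 h).2)]
  have : Set.Iio (2 * m + 1 + (c m).toNat) = ((Finset.range (2 * m + 1 + (c m).toNat) :
      Finset ℕ) : Set ℕ) := by
    ext x; simp
  rw [this, Set.ncard_coe_finset, Finset.card_range]

theorem wc_inf (c : ℕ → Bool) : {t | wc c t = 0}.Infinite := by
  refine Set.infinite_of_injective_forall_mem (f := fun n => Nat.pair n (2 * n + 3)) ?_ ?_
  · intro a b h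
    exact (Nat.pair_eq_pair.1 h).1
  · intro n
    show wc c _ = 0
    rw [wc_pair, if_neg]
    have := Bool.toNat_le (c n)
    omega

theorem cont_wc (t : ℕ) : Continuous fun c : ℕ → Bool => wc c t := by
  have h1 : Continuous fun c : ℕ → Bool => c t.unpair.1 := continuous_apply _
  have h2 : Continuous fun b : Bool =>
      if t.unpair.2 < 2 * t.unpair.1 + 1 + b.toNat then t.unpair.1 + 1 else 0 :=
    continuous_of_discreteTopology
  exact h2.comp h1

/-- a set of sizes determines the code -/
theorem code_eq {c d : ℕ → Bool} (P : (ℕ → Bool) → ℕ → Prop)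
    (hP : ∀ c m, P c (2 * m + 2) ↔ c m = true) (h : ∀ s, P c s ↔ P d s) : c = d := by
  funext m
  have h1 := h (2 * m + 2)
  rw [hP, hP] at h1
  exact Bool.eq_iff_iff.2 h1

/-- the set of the sizes of the fibres of a function -/
theorem sizes_iso {U V : ℕ → ℕ} (σ : Equiv.Perm ℕ) (h : ∀ z, V (σ z) = σ (U z)) (s : ℕ) :
    (∃ y, {z | U z = y}.ncard = s) ↔ ∃ y, {z | V z = y}.ncard = s := by
  have key : ∀ {U V : ℕ → ℕ} (σ : Equiv.Perm ℕ), (∀ z, V (σ z) = σ (U z)) →
      (∃ y, {z | U z = y}.ncard = s) → ∃ y, {z | V z = y}.ncard = s := by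
    rintro U V σ h ⟨y, hy⟩
    refine ⟨σ y, ?_⟩
    rw [← hy, ← Set.ncard_image_of_injective {z | U z = y} σ.injective]
    congr 1
    ext z
    simp only [mem_ofPred_eq, mem_image]
    constructor
    · intro hz
      refine ⟨σ.symm z, ?_, σ.apply_symm_apply z⟩
      apply σ.injective
      rw [← h, σ.apply_symm_apply, hz]
    · rintro ⟨x, hx, rfl⟩
      rw [h, hx]
  refine ⟨key σ h, key σ.symm fun z => ?_⟩
  apply σ.injective
  rw [← h, σ.apply_symm_apply, σ.apply_symm_apply]

/-! ### The case of a function symbol -/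

open Classical in
/-- the second coordinate of the values -/
noncomputable def vl (x0 : ℕ) (c : ℕ → Bool) (n : ℕ) (a : Fin n → ℕ) : ℕ :=
  if h : 0 < n then
    (if (∀ i, a i = a ⟨0, h⟩) ∧ (a ⟨0, h⟩).unpair.1 = x0 then wc c (a ⟨0, h⟩).unpair.2 else 0)
  else 0

theorem vl_diag (x0 : ℕ) (c : ℕ → Bool) (n z : ℕ) :
    vl x0 c (n + 1) (fun _ => z) = if z.unpair.1 = x0 then wc c z.unpair.2 else 0 := by
  unfold vl
  simp

theorem cont_vl (x0 n : ℕ) (a : Fin n → ℕ) : Continuous fun c : ℕ → Bool => vl x0 c n a := by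
  unfold vl
  split_ifs
  · exact cont_wc _
  · exact continuous_const
  · exact continuous_const

/-- the coded structure -/
noncomputable def NF (M : Str L ℕ) (x0 : ℕ) (c : ℕ → Bool) : Str L ℕ :=
  (fun n F a => Nat.pair (M.1 n F fun i => (a i).unpair.1) (vl x0 c n a),
    fun n R a => M.2 n R fun i => (a i).unpair.1)

theorem nf_strict (M : Str L ℕ) (x0 : ℕ) (c : ℕ → Bool) :
    Strict (NF M x0 c) M fun z => z.unpair.1 :=
  ⟨fun x => ⟨Nat.pair x 0, by simp⟩, fun n F a => by
    show (Nat.unpair (Nat.pair _ _)).1 = _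
    rw [Nat.unpair_pair]
    rfl, fun n R a => rfl⟩

theorem cont_NF (M : Str L ℕ) (x0 : ℕ) : Continuous (NF M x0) := by
  refine Continuous.prodMk ?_ continuous_const
  refine continuous_pi fun n => continuous_pi fun F => continuous_pi fun a => ?_
  have h : Continuous fun v : ℕ => Nat.pair (M.1 n F fun i => (a i).unpair.1) v :=
    continuous_of_discreteTopology
  exact h.comp (cont_vl x0 n a)

theorem caseF {K : Set (Str L ℕ)} (hK : StrictClosed K) {M : Str L ℕ} (hM : M ∈ K) {n0 : ℕ}
    (F0 : L.Functions (n0 + 1)) :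
    ∃ g : (ℕ → Bool) → Str L ℕ, Continuous g ∧ (∀ a, g a ∈ K) ∧ ∀ a b, Iso (g a) (g b) → a = b := by
  let u : ℕ → ℕ := fun x => M.1 (n0 + 1) F0 fun _ => x
  let U : (ℕ → Bool) → ℕ → ℕ := fun c z => (NF M 0 c).1 (n0 + 1) F0 fun _ => z
  have hU : ∀ c z, U c z = Nat.pair (u z.unpair.1) (if z.unpair.1 = 0 then wc c z.unpair.2 else 0) :=
    fun c z => by
      show Nat.pair _ (vl 0 c (n0 + 1) fun _ => z) = _
      rw [vl_diag]
  have main : ∀ c m, (∃ y, {z | U c z = y}.ncard = 2 * m + 2) ↔ c m = true := by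
    intro c m
    have h1 : ∀ k, {z | U c z = Nat.pair (u 0) (k + 1)} =
        (fun t => Nat.pair 0 t) '' {t | wc c t = k + 1} := by
      intro k
      ext z
      simp only [mem_ofPred_eq, mem_image]
      rw [hU, Nat.pair_eq_pair]
      constructor
      · rintro ⟨h2, h3⟩
        split_ifs at h3 with h4
        · exact ⟨_, h3, by rw [← h4]; exact Nat.pair_unpair z⟩
      · rintro ⟨t, ht, rfl⟩
        rw [Nat.unpair_pair]
        simp [ht]
    have h2 : ∀ k, {z | U c z = Nat.pair (u 0) (k + 1)}.ncard = 2 * k + 1 + (c k).toNat := by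
      intro k
      rw [h1, Set.ncard_image_of_injective _ (fun a b h => (Nat.pair_eq_pair.1 h).2), wc_card]
    constructor
    · rintro ⟨y, hy⟩
      have hne : {z | U c z = y}.Nonempty := by
        rw [Set.nonempty_iff_ne_empty]
        intro h
        rw [h, Set.ncard_empty] at hy
        omega
      have hfin : {z | U c z = y}.Finite := by
        by_contra h
        rw [Set.Infinite.ncard h] at hy
        omega
      obtain ⟨z, hz⟩ := hne
      have hz' : U c z = y := hz
      rw [hU] at hz'
      have hinf : ∀ S : Set ℕ, S.Infinite → ∀ x, (∀ t ∈ S, U c (Nat.pair x t) = y) → False := by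
        intro S hS x h
        apply hS
        refine Set.Finite.of_finite_image (f := fun t => Nat.pair x t) (hfin.subset ?_)
          (fun a _ b _ h => (Nat.pair_eq_pair.1 h).2)
        rintro _ ⟨t, ht, rfl⟩
        exact h t ht
      by_cases hx : z.unpair.1 = 0
      · rw [if_pos hx] at hz'
        rcases hw : wc c z.unpair.2 with _ | k
        · exfalso
          refine hinf _ (wc_inf c) 0 fun t ht => ?_
          rw [hU, ← hz', Nat.unpair_pair]
          simp only [if_true]
          rw [hx, hw, show wc c t = 0 from ht]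
        · rw [hw, hx] at hz'
          rw [← hz', h2] at hy
          have h5 := Bool.toNat_le (c k)
          have h6 : k = m := by omega
          subst h6
          have h7 : (c k).toNat = 1 := by omega
          rcases hck : c k with _ | _
          · rw [hck] at h7
            simp at h7
          · rfl
      · exfalso
        rw [if_neg hx] at hz'
        refine hinf Set.univ Set.infinite_univ z.unpair.1 fun t _ => ?_
        rw [hU, ← hz', Nat.unpair_pair]
        simp only
        rw [if_neg hx]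
    · intro hc
      refine ⟨Nat.pair (u 0) (m + 1), ?_⟩
      rw [h2, hc]
      rfl
  refine ⟨NF M 0, cont_NF M 0, fun a => (hK _ _ _ (nf_strict M 0 a)).2 hM, fun a b hab => ?_⟩
  obtain ⟨σ, hσ⟩ := hab
  refine code_eq (fun c s => ∃ y, {z | U c z = y}.ncard = s) main fun s => ?_
  refine sizes_iso σ (fun z => ?_) s
  exact (hσ.fn (n0 + 1) F0 fun _ => z).symm

end Pool.Agent.Run7.h271.EF
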