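import Pool.Agent.Run7.h271.EF.CaseF

set_option autoImplicit false

/-!
# Infinitely many classes; infinitely many constants
-/

namespace Pool.Agent.Run7.h271.EF

open FirstOrder Set

variable {L : FirstOrder.Language.{0, 0}}

/-- a section of `wc c` -/
def sc (n : ℕ) : ℕ := match n with
  | 0 => Nat.pair 0 2
  | m + 1 => Nat.pair m 0

theorem wc_sc (c : ℕ → Bool) (n : ℕ) : wc c (sc n) = n := by
  cases n with
  | zero =>
    show wc c (Nat.pair 0 2) = 0
    rw [wc_pair, if_neg]
    have := Bool.toNat_le (c 0)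
    omega
  | succ m =>
    show wc c (Nat.pair m 0) = m + 1
    rw [wc_pair, if_pos]
    omega

theorem cont_pull {Q : Str L ℕ} (h0 : ∀ n, IsEmpty (L.Functions (n + 1))) :
    Continuous fun c : ℕ → Bool => pull Q (wc c) sc := by
  refine Continuous.prodMk ?_ ?_
  · refine continuous_pi fun n => continuous_pi fun F => continuous_pi fun a => ?_
    cases n with
    | zero =>
      have h : (fun c : ℕ → Bool => sc (Q.1 0 F (wc c ∘ a))) = fun _ => sc (Q.1 0 F a) := by
        funext c
        exact congrArg _ (congrArg (Q.1 0 F) (funext fun i => i.elim0))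
      show Continuous fun c : ℕ → Bool => sc (Q.1 0 F (wc c ∘ a))
      rw [h]
      exact continuous_const
    | succ n => exact ((h0 n).false F).elim
  · refine continuous_pi fun n => continuous_pi fun R => continuous_pi fun a => ?_
    have h1 : Continuous fun c : ℕ → Bool => wc c ∘ a :=
      continuous_pi fun i => cont_wc (a i)
    have h2 : Continuous fun b : Fin n → ℕ => Q.2 n R b := continuous_of_discreteTopology
    exact h2.comp h1

theorem caseR {K : Set (Str L ℕ)} (hK : StrictClosed K) (h0 : ∀ n, IsEmpty (L.Functions (n + 1)))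
    {M : Str L ℕ} (hM : M ∈ K) (hinf : Infinite (Quotient (lzs M))) :
    ∃ g : (ℕ → Bool) → Str L ℕ, Continuous g ∧ (∀ a, g a ∈ K) ∧ ∀ a b, Iso (g a) (g b) → a = b := by
  obtain ⟨e⟩ : Nonempty (Quotient (lzs M) ≃ ℕ) := nonempty_equiv_of_countable
  let Q := tr e (quo M)
  have hQ : Red Q := tr_red e (quo_red h0 M)
  have hMQ : Strict M Q (e ∘ Quotient.mk (lzs M)) := strict_comp (quo_strict h0 M) (tr_strict e _)
  have hg : ∀ c, Strict (pull Q (wc c) sc) Q (wc c) := fun c => pull_strict Q (wc_sc c)
  refine ⟨fun c => pull Q (wc c) sc, cont_pull h0, fun c => cover hK hMQ (hg c) hM,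
    fun a b hab => ?_⟩
  obtain ⟨σ, hσ⟩ := hab
  refine code_eq (fun c s => ∃ x, {z | Lz (pull Q (wc c) sc) z x}.ncard = s) (fun c m => ?_)
    fun s => ?_
  · have h1 : ∀ x, {z | Lz (pull Q (wc c) sc) z x} = {z | wc c z = wc c x} := by
      intro x
      ext z
      exact lz_over (hg c) hQ z x
    constructor
    · rintro ⟨x, hx⟩
      rw [h1] at hx
      rcases hw : wc c x with _ | k
      · rw [hw, Set.Infinite.ncard (wc_inf c)] at hx
        omega
      · rw [hw, wc_card] at hx
        have h5 := Bool.toNat_le (c k)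
        have h6 : k = m := by omega
        subst h6
        rcases hck : c k with _ | _
        · rw [hck] at hx
          simp at hx
        · rfl
    · intro hc
      refine ⟨sc (m + 1), ?_⟩
      rw [h1, wc_sc, wc_card, hc]
      rfl
  · have key : ∀ {N N' : Str L ℕ} {σ : Equiv.Perm ℕ}, Strict N N' σ →
        (∃ x, {z | Lz N z x}.ncard = s) → ∃ x, {z | Lz N' z x}.ncard = s := by
      rintro N N' σ h ⟨x, hx⟩
      refine ⟨σ x, ?_⟩
      rw [← hx, ← Set.ncard_image_of_injective {z | Lz N z x} σ.injective]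
      congr 1
      ext z
      simp only [mem_ofPred_eq, mem_image]
      constructor
      · intro hz
        refine ⟨σ.symm z, ?_, σ.apply_symm_apply z⟩
        rw [lz_iso h, σ.apply_symm_apply]
        exact hz
      · rintro ⟨y, hy, rfl⟩
        exact (lz_iso h _ _).1 hy
    exact ⟨key hσ, key (strict_symm hσ)⟩

/-! ### Infinitely many constants -/

/-- the remainder modulo `k + 1` -/
def rm (k : ℕ) (i : ℕ) : Fin (k + 1) := ⟨i % (k + 1), Nat.mod_lt _ (Nat.succ_pos k)⟩

theorem rm_val {k : ℕ} (x : Fin (k + 1)) : rm k x.val = x := by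
  apply Fin.ext
  exact Nat.mod_eq_of_lt x.isLt

theorem rm_val' {k : ℕ} (x : Fin (k + 1)) : rm k (x.val + (k + 1)) = x := by
  apply Fin.ext
  show (x.val + (k + 1)) % (k + 1) = x.val
  rw [Nat.add_mod_right]
  exact Nat.mod_eq_of_lt x.isLt

theorem finite_index {M : Str L ℕ} (h : Finite (Quotient (lzs M))) :
    ∃ k, Nonempty (Quotient (lzs M) ≃ Fin (k + 1)) := by
  obtain ⟨n, ⟨e⟩⟩ := Finite.exists_equiv_fin (Quotient (lzs M))
  cases n with
  | zero => exact (e ⟦0⟧).elim0
  | succ k => exact ⟨k, ⟨e⟩⟩

open Classical in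
theorem caseC {K : Set (Str L ℕ)} (hK : StrictClosed K) (h0 : ∀ n, IsEmpty (L.Functions (n + 1)))
    (hC : Infinite (L.Functions 0))
    {M : Str L ℕ} (hM : M ∈ K) (hfin : Finite (Quotient (lzs M))) :
    ∃ g : (ℕ → Bool) → Str L ℕ, Continuous g ∧ (∀ a, g a ∈ K) ∧ ∀ a b, Iso (g a) (g b) → a = b := by
  obtain ⟨k, ⟨e⟩⟩ := finite_index hfin
  let Q : Str L (Fin (k + 1)) := tr e (quo M)
  have hMQ : Strict M Q (e ∘ Quotient.mk (lzs M)) := strict_comp (quo_strict h0 M) (tr_strict e _)
  obtain ⟨x0, j, hji, hj⟩ : ∃ (x0 : Fin (k + 1)) (j : ℕ → L.Functions 0), Function.Injective j ∧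
      ∀ m, Q.1 0 (j m) Fin.elim0 = x0 := by
    obtain ⟨x0, hx0⟩ := Finite.exists_infinite_fiber (fun F : L.Functions 0 => Q.1 0 F Fin.elim0)
    let j : ℕ ↪ ((fun F : L.Functions 0 => Q.1 0 F Fin.elim0) ⁻¹' {x0}) := Infinite.natEmbedding _
    exact ⟨x0, fun m => (j m).1, fun a b h => j.injective (Subtype.ext h), fun m => (j m).2⟩
  -- the constants that are moved
  let P : (ℕ → Bool) → (n : ℕ) → L.Functions n → Prop := fun c n F =>
    ∃ m, c m = true ∧ (⟨n, F⟩ : Σ n, L.Functions n) = ⟨0, j (m + 1)⟩
  let g : (ℕ → Bool) → Str L ℕ := fun c =>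
    (fun n F a => if P c n F then x0.val + (k + 1) else (Q.1 n F (rm k ∘ a)).val,
      fun n R a => Q.2 n R (rm k ∘ a))
  have hg : ∀ c, Strict (g c) Q (rm k) := by
    intro c
    refine ⟨fun x => ⟨x.val, rm_val x⟩, fun n F a => ?_, fun n R a => rfl⟩
    show rm k (if P c n F then x0.val + (k + 1) else (Q.1 n F (rm k ∘ a)).val) = _
    split_ifs with h
    · rw [rm_val']
      obtain ⟨m, -, h2⟩ := h
      cases n with
      | zero =>
        have h3 : F = j (m + 1) := by simpa using h2
        rw [h3, ← hj (m + 1)]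
        exact congrArg (Q.1 0 _) (funext fun i => i.elim0)
      | succ n => exact ((h0 n).false F).elim
    · rw [rm_val]
  have hval : ∀ c m, (g c).1 0 (j (m + 1)) Fin.elim0 =
      if c m = true then x0.val + (k + 1) else x0.val := by
    intro c m
    show (if P c 0 (j (m + 1)) then x0.val + (k + 1) else _) = _
    have h1 : P c 0 (j (m + 1)) ↔ c m = true := by
      constructor
      · rintro ⟨m', h2, h3⟩
        have h4 : j (m + 1) = j (m' + 1) := by simpa using h3
        have h5 := hji h4
        have h6 : m = m' := by omega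
        rw [h6]; exact h2
      · intro h
        exact ⟨m, h, rfl⟩
    simp only [h1]
    split_ifs
    · rfl
    · rw [← hj (m + 1)]
      exact congrArg Fin.val (congrArg (Q.1 0 _) (funext fun i => i.elim0))
  have hval0 : ∀ c, (g c).1 0 (j 0) Fin.elim0 = x0.val := by
    intro c
    show (if P c 0 (j 0) then x0.val + (k + 1) else _) = _
    have h1 : ¬ P c 0 (j 0) := by
      rintro ⟨m', h2, h3⟩
      have h4 : (j 0) = j (m' + 1) := by simpa using h3
      have h5 := hji h4
      omega
    rw [if_neg h1, ← hj 0]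
    exact congrArg Fin.val (congrArg (Q.1 0 _) (funext fun i => i.elim0))
  refine ⟨g, ?_, fun c => cover hK hMQ (hg c) hM, fun a b hab => ?_⟩
  · refine Continuous.prodMk ?_ continuous_const
    refine continuous_pi fun n => continuous_pi fun F => continuous_pi fun a => ?_
    by_cases hnF : ∃ m, (⟨n, F⟩ : Σ n, L.Functions n) = ⟨0, j (m + 1)⟩
    · obtain ⟨m, hm⟩ := hnF
      have h1 : ∀ c, P c n F ↔ c m = true := by
        intro c
        constructor
        · rintro ⟨m', h2, h3⟩
          have h4 : j (m + 1) = j (m' + 1) := by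
            rw [hm] at h3
            simpa using h3
          have h5 := hji h4
          have h6 : m = m' := by omega
          rw [h6]; exact h2
        · intro h
          exact ⟨m, h, hm⟩
      show Continuous fun c => if P c n F then x0.val + (k + 1) else (Q.1 n F (rm k ∘ a)).val
      simp only [h1]
      have h2 : Continuous fun v : Bool =>
          if v = true then x0.val + (k + 1) else (Q.1 n F (rm k ∘ a)).val :=
        continuous_of_discreteTopology
      exact h2.comp (continuous_apply m)
    · have h1 : ∀ c, ¬ P c n F := by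
        rintro c ⟨m, -, h⟩
        exact hnF ⟨m, h⟩
      show Continuous fun c => if P c n F then x0.val + (k + 1) else (Q.1 n F (rm k ∘ a)).val
      simp only [h1, if_false]
      exact continuous_const
  · obtain ⟨σ, hσ⟩ := hab
    funext m
    have h1 : ∀ F : L.Functions 0, σ ((g a).1 0 F Fin.elim0) = (g b).1 0 F Fin.elim0 := by
      intro F
      rw [hσ.fn]
      exact congrArg ((g b).1 0 F) (funext fun i => i.elim0)
    have h2 : (g a).1 0 (j (m + 1)) Fin.elim0 = (g a).1 0 (j 0) Fin.elim0 ↔
        (g b).1 0 (j (m + 1)) Fin.elim0 = (g b).1 0 (j 0) Fin.elim0 := by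
      rw [← h1, ← h1, σ.injective.eq_iff]
    rw [hval, hval, hval0, hval0] at h2
    rcases ha : a m with _ | _ <;> rcases hb : b m with _ | _ <;> simp [ha, hb] at h2 ⊢

end Pool.Agent.Run7.h271.EF
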