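import Pool.Agent.Run7.h271.EF.Main

set_option autoImplicit false

/-!
# First-order theories without equality
-/

namespace Pool.Agent.Run7.h271.EF

open FirstOrder Set MeasureTheory

variable {L : FirstOrder.Language.{0, 0}}

/-- The structure given by its functions and relations. -/
@[reducible] def toS (M : Str L ℕ) : L.Structure ℕ where
  funMap := fun {n} F a => M.1 n F a
  RelMap := fun {n} R a => M.2 n R a = true

open Classical in
/-- the values of a structure -/
noncomputable def ofS (S : L.Structure ℕ) : Str L ℕ :=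
  (fun _ F a => @FirstOrder.Language.Structure.funMap L ℕ S _ F a,
    fun _ R a => decide (@FirstOrder.Language.Structure.RelMap L ℕ S _ R a))

theorem to_of (S : L.Structure ℕ) : toS (ofS S) = S := by
  classical
  refine FirstOrder.Language.Structure.ext ?_ ?_
  · funext n F a
    rfl
  · funext n R a
    exact propext decide_eq_true_iff

theorem of_rel (S : L.Structure ℕ) (n : ℕ) (R : L.Relations n) (a : Fin n → ℕ) :
    (ofS S).2 n R a = true ↔ @FirstOrder.Language.Structure.RelMap L ℕ S n R a := by
  classical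
  exact decide_eq_true_iff

/-- The formula does not contain the equality symbol. -/
def EqFree {α : Type} : ∀ {n : ℕ}, L.BoundedFormula α n → Prop
  | _, .falsum => True
  | _, .equal _ _ => False
  | _, .rel _ _ => True
  | _, .imp f g => EqFree f ∧ EqFree g
  | _, .all f => EqFree f

theorem term_real {M N : Str L ℕ} {h : ℕ → ℕ} (hs : Strict M N h) {γ : Type} (t : L.Term γ)
    (v : γ → ℕ) : h (@FirstOrder.Language.Term.realize L ℕ (toS M) γ v t) =
      @FirstOrder.Language.Term.realize L ℕ (toS N) γ (h ∘ v) t := by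
  induction t with
  | var a => rfl
  | func F ts ih =>
    show h (M.1 _ F _) = N.1 _ F _
    rw [hs.fn]
    exact congrArg _ (funext fun i => ih i)

theorem form_real {M N : Str L ℕ} {h : ℕ → ℕ} (hs : Strict M N h) {α : Type} {n : ℕ}
    (φ : L.BoundedFormula α n) : EqFree φ → ∀ (v : α → ℕ) (xs : Fin n → ℕ),
    (@FirstOrder.Language.BoundedFormula.Realize L ℕ (toS M) α n φ v xs ↔
      @FirstOrder.Language.BoundedFormula.Realize L ℕ (toS N) α n φ (h ∘ v) (h ∘ xs)) := by
  induction φ with
  | falsum => exact fun _ _ _ => Iff.rfl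
  | equal => exact fun h => h.elim
  | rel R ts =>
    intro _ v xs
    show M.2 _ R _ = true ↔ N.2 _ R _ = true
    rw [hs.rel]
    have e : (h ∘ fun i => @FirstOrder.Language.Term.realize L ℕ (toS M) _ (Sum.elim v xs) (ts i)) =
        fun i => @FirstOrder.Language.Term.realize L ℕ (toS N) _ (Sum.elim (h ∘ v) (h ∘ xs))
          (ts i) := by
      funext i
      show h _ = _
      rw [term_real hs, Sum.comp_elim]
    rw [e]
  | imp f g ihf ihg =>
    intro he v xs
    exact imp_congr (ihf he.1 v xs) (ihg he.2 v xs)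
  | all f ih =>
    intro he v xs
    constructor
    · intro h1 y
      obtain ⟨x, rfl⟩ := hs.surj y
      have h2 := (ih he v (Fin.snoc xs x)).1 (h1 x)
      rwa [Fin.comp_snoc] at h2
    · intro h1 x
      rw [ih he, Fin.comp_snoc]
      exact h1 (h x)

theorem cont_eval (n : ℕ) (F : L.Functions n) {T : Type} [TopologicalSpace T]
    {f : T → Str L ℕ} {a : T → Fin n → ℕ} (hf : Continuous f) (ha : Continuous a) :
    Continuous fun t => (f t).1 n F (a t) := by
  rw [continuous_iff_continuousAt]
  intro t
  have h1 : ∀ᶠ s in nhds t, a s = a t :=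
    (isOpen_discrete {a t}).preimage ha |>.mem_nhds rfl
  have h2 : ContinuousAt (fun s => (f s).1 n F (a t)) t :=
    ((continuous_apply (a t)).comp ((continuous_apply F).comp ((continuous_apply n).comp
      (continuous_fst.comp hf)))).continuousAt
  refine h2.congr ?_
  filter_upwards [h1] with s hs
  rw [hs]

theorem cont_term {γ : Type} (t : L.Term γ) (v : γ → ℕ) :
    Continuous fun M : Str L ℕ => @FirstOrder.Language.Term.realize L ℕ (toS M) γ v t := by
  induction t with
  | var a => exact continuous_const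
  | func F ts ih =>
    show Continuous fun M : Str L ℕ => M.1 _ F fun i =>
      @FirstOrder.Language.Term.realize L ℕ (toS M) γ v (ts i)
    exact cont_eval _ F continuous_id (continuous_pi fun i => ih i)

theorem clopen_rel {n : ℕ} (R : L.Relations n) {a : Str L ℕ → Fin n → ℕ} (ha : Continuous a) :
    IsClopen {M : Str L ℕ | M.2 n R (a M) = true} := by
  have h : Continuous fun M : Str L ℕ => M.2 n R (a M) := by
    rw [continuous_iff_continuousAt]
    intro t
    have h1 : ∀ᶠ s in nhds t, a s = a t :=
      (isOpen_discrete {a t}).preimage ha |>.mem_nhds rfl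
    have h2 : ContinuousAt (fun s : Str L ℕ => s.2 n R (a t)) t :=
      ((continuous_apply (a t)).comp ((continuous_apply R).comp ((continuous_apply n).comp
        continuous_snd))).continuousAt
    refine h2.congr ?_
    filter_upwards [h1] with s hs
    rw [hs]
  exact (isClopen_discrete {true}).preimage h

theorem meas_form {α : Type} {n : ℕ} (φ : L.BoundedFormula α n) :
    ∀ (v : α → ℕ) (xs : Fin n → ℕ), MeasurableSet[borel _]
      {M : Str L ℕ | @FirstOrder.Language.BoundedFormula.Realize L ℕ (toS M) α n φ v xs} := by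
  let _ : MeasurableSpace (Str L ℕ) := borel _
  have : BorelSpace (Str L ℕ) := ⟨rfl⟩
  induction φ with
  | falsum =>
    intro v xs
    exact MeasurableSet.empty
  | equal t s =>
    intro v xs
    exact (isClosed_eq (cont_term t _) (cont_term s _)).measurableSet
  | rel R ts =>
    intro v xs
    exact (clopen_rel R (continuous_pi fun i => cont_term (ts i) _)).isOpen.measurableSet
  | imp f g ihf ihg =>
    intro v xs
    have e : {M : Str L ℕ | @FirstOrder.Language.BoundedFormula.Realize L ℕ (toS M) _ _
        (f.imp g) v xs} =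
        {M | @FirstOrder.Language.BoundedFormula.Realize L ℕ (toS M) _ _ f v xs}ᶜ ∪
        {M | @FirstOrder.Language.BoundedFormula.Realize L ℕ (toS M) _ _ g v xs} := by
      ext M
      exact imp_iff_not_or
    rw [e]
    exact (ihf v xs).compl.union (ihg v xs)
  | all f ih =>
    intro v xs
    have e : {M : Str L ℕ | @FirstOrder.Language.BoundedFormula.Realize L ℕ (toS M) _ _
        f.all v xs} =
        ⋂ x : ℕ, {M | @FirstOrder.Language.BoundedFormula.Realize L ℕ (toS M) _ _ f v
          (Fin.snoc xs x)} := by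
      ext M
      simp only [mem_ofPred_eq, mem_iInter]
      exact Iff.rfl
    rw [e]
    exact MeasurableSet.iInter fun x => ih v _

theorem countable_sentences (hL : Countable L.Symbols) : Countable L.Sentence := by
  have h1 : Cardinal.mk (Σ n, L.BoundedFormula Empty n) ≤ Cardinal.aleph0 := by
    refine FirstOrder.Language.BoundedFormula.card_le.trans ?_
    simp only [max_le_iff, le_refl, true_and]
    have : L.card ≤ Cardinal.aleph0 := Cardinal.mk_le_aleph0_iff.2 hL
    simpa using this
  have h2 : Countable (Σ n, L.BoundedFormula Empty n) := Cardinal.mk_le_aleph0_iff.1 h1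
  have hinj : Function.Injective
      (fun σ : L.Sentence => (⟨0, σ⟩ : Σ n, L.BoundedFormula Empty n)) := by
    intro σ σ' h
    simpa using h
  exact hinj.countable

theorem meas_theory (hL : Countable L.Symbols) (T : L.Theory) : MeasurableSet[borel _]
    {M : Str L ℕ | @FirstOrder.Language.Theory.Model L ℕ (toS M) T} := by
  let _ : MeasurableSpace (Str L ℕ) := borel _
  have h1 : Countable L.Sentence := countable_sentences hL
  have e : {M : Str L ℕ | @FirstOrder.Language.Theory.Model L ℕ (toS M) T} =
      ⋂ φ ∈ T, {M | @FirstOrder.Language.Sentence.Realize L ℕ (toS M) φ} := by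
    ext M
    simp only [mem_ofPred_eq, mem_iInter]
    exact ⟨fun h φ hφ => @FirstOrder.Language.Theory.realize_sentence_of_mem L ℕ (toS M) T h φ hφ,
      fun h => @FirstOrder.Language.Theory.Model.mk L ℕ (toS M) T h⟩
  rw [e]
  refine MeasurableSet.biInter T.to_countable fun φ _ => ?_
  exact meas_form φ _ _

theorem iso_of {M N : Str L ℕ} (h : Nonempty (@FirstOrder.Language.Equiv L ℕ ℕ (toS M) (toS N))) :
    Iso M N := by
  obtain ⟨e⟩ := h
  let σ : Equiv.Perm ℕ := @FirstOrder.Language.Equiv.toEquiv L ℕ ℕ (toS M) (toS N) e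
  have h3 : ∀ (n : ℕ) (F : L.Functions n) (a : Fin n → ℕ),
      σ (M.1 n F a) = N.1 n F (σ ∘ a) := fun n F a =>
    @FirstOrder.Language.Equiv.map_fun' L ℕ ℕ (toS M) (toS N) e n F a
  have h4 : ∀ (n : ℕ) (R : L.Relations n) (a : Fin n → ℕ),
      (N.2 n R (σ ∘ a) = true ↔ M.2 n R a = true) := fun n R a =>
    @FirstOrder.Language.Equiv.map_rel' L ℕ ℕ (toS M) (toS N) e n R a
  exact ⟨σ, σ.surjective, h3, fun n R a => (Bool.eq_iff_iff.2 (h4 n R a)).symm⟩

theorem of_iso {M N : Str L ℕ} (h : Iso M N) :
    Nonempty (@FirstOrder.Language.Equiv L ℕ ℕ (toS M) (toS N)) := by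
  obtain ⟨σ, h⟩ := h
  refine ⟨@FirstOrder.Language.Equiv.mk L ℕ ℕ (toS M) (toS N) σ (fun {n} F a => h.fn n F a)
    (fun {n} R a => ?_)⟩
  show N.2 n R (σ ∘ a) = true ↔ M.2 n R a = true
  rw [h.rel]

theorem adapt (K : Set (Str L ℕ)) (h : (∃ f : ℕ → Str L ℕ, ∀ M ∈ K, ∃ n, Iso (f n) M) ∨
    ∃ g : (ℕ → Bool) → Str L ℕ, Continuous g ∧ (∀ a, g a ∈ K) ∧ ∀ a b, Iso (g a) (g b) → a = b) :
    (∃ g : ℕ → L.Structure ℕ, ∀ S : L.Structure ℕ, ofS S ∈ K →
      ∃ n : ℕ, Nonempty (@FirstOrder.Language.Equiv L ℕ ℕ S (g n))) ∨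
    (∃ f : (ℕ → Bool) → L.Structure ℕ,
      (∀ x : ℕ → Bool, ∃ M ∈ K, f x = toS M) ∧
      (∀ x y : ℕ → Bool, Nonempty (@FirstOrder.Language.Equiv L ℕ ℕ (f x) (f y)) → x = y) ∧
      (∀ (n : ℕ) (R : L.Relations n) (a : Fin n → ℕ),
        IsClopen {x : ℕ → Bool | @FirstOrder.Language.Structure.RelMap L ℕ (f x) n R a}) ∧
      (∀ (n : ℕ) (F : L.Functions n) (a : Fin n → ℕ) (b : ℕ),
        IsOpen {x : ℕ → Bool | @FirstOrder.Language.Structure.funMap L ℕ (f x) n F a = b})) := by
  rcases h with ⟨f, hf⟩ | ⟨g, hg, hgK, hgi⟩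
  · left
    refine ⟨fun n => toS (f n), fun S hS => ?_⟩
    obtain ⟨n, hn⟩ := hf _ hS
    obtain ⟨σ, hσ⟩ := hn
    refine ⟨n, ?_⟩
    have h1 := of_iso (M := ofS S) (N := f n) ⟨σ.symm, strict_symm hσ⟩
    rwa [to_of] at h1
  · right
    refine ⟨fun x => toS (g x), fun x => ⟨g x, hgK x, rfl⟩, fun x y h => hgi x y (iso_of h), ?_, ?_⟩
    · intro n R a
      have h1 : Continuous fun x => (g x).2 n R a :=
        (continuous_apply a).comp ((continuous_apply R).comp ((continuous_apply n).comp
          (continuous_snd.comp hg)))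
      exact (isClopen_discrete {true}).preimage h1
    · intro n F a b
      have h1 : Continuous fun x => (g x).1 n F a :=
        (continuous_apply a).comp ((continuous_apply F).comp ((continuous_apply n).comp
          (continuous_fst.comp hg)))
      exact (isOpen_discrete {b}).preimage h1

end Pool.Agent.Run7.h271.EF
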