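import Pool.Agent.Run7.h271.EF.CaseR
import Pool.Agent.H566W.Ana

set_option autoImplicit false

/-!
# Finitely many classes and finitely many constants
-/

namespace Pool.Agent.Run7.h271.EF

open FirstOrder Set MeasureTheory

variable {L : FirstOrder.Language.{0, 0}}

theorem equiv_of_card {A B : Type} [Countable A] [Countable B] (h : ENat.card A = ENat.card B) :
    Nonempty (A ≃ B) := by
  rcases finite_or_infinite A with hA | hA
  · have hB : Finite B := by
      by_contra hB
      rw [not_finite_iff_infinite] at hB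
      rw [ENat.card_eq_top_of_infinite (α := B)] at h
      rw [ENat.card_eq_top] at h
      exact not_finite A
    have h1 : Nat.card A = Nat.card B := by
      rw [Nat.card, Nat.card] at *
      rw [ENat.card_eq_coe_natCard, ENat.card_eq_coe_natCard] at h
      exact_mod_cast h
    exact Finite.card_eq.1 h1
  · have hB : Infinite B := by
      rw [ENat.card_eq_top_of_infinite (α := A)] at h
      exact ENat.card_eq_top.1 h.symm
    exact nonempty_equiv_of_countable

/-- the constants -/
def cst (M : Str L ℕ) (F : L.Functions 0) : ℕ := M.1 0 F Fin.elim0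

theorem cst_eq (M : Str L ℕ) (F : L.Functions 0) (a : Fin 0 → ℕ) : M.1 0 F a = cst M F :=
  congrArg (M.1 0 F) (funext fun i => i.elim0)

/-- the number of the further points of the class -/
noncomputable def num {k : ℕ} (M : Str L ℕ) (p : ℕ → Fin (k + 1)) (x : Fin (k + 1)) : ℕ∞ :=
  ENat.card {a : {i // i ∉ range (cst M)} // p a.1 = x}

open Classical in
theorem iso_over (h0 : ∀ n, IsEmpty (L.Functions (n + 1))) {k : ℕ} {Q : Str L (Fin (k + 1))}
    {M N : Str L ℕ} {p r : ℕ → Fin (k + 1)} (hp : Strict M Q p) (hr : Strict N Q r)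
    (hpat : ∀ F G, cst M F = cst M G ↔ cst N F = cst N G) (hn : num M p = num N r) : Iso M N := by
  -- the points given by constants
  have hc : ∀ F, p (cst M F) = r (cst N F) := by
    intro F
    unfold cst
    rw [hp.fn, hr.fn]
    exact congrArg (Q.1 0 F) (funext fun i => i.elim0)
  let f : {i // i ∈ range (cst M)} → {i // i ∈ range (cst N)} := fun i =>
    ⟨cst N (Classical.choose i.2), mem_range_self _⟩
  have hf : ∀ F, f ⟨cst M F, mem_range_self F⟩ = ⟨cst N F, mem_range_self F⟩ := by
    intro F
    apply Subtype.ext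
    show cst N _ = cst N F
    rw [← hpat]
    exact Classical.choose_spec (mem_range_self (f := cst M) F)
  have hfb : Function.Bijective f := by
    constructor
    · rintro ⟨_, F, rfl⟩ ⟨_, G, rfl⟩ h
      rw [hf, hf] at h
      apply Subtype.ext
      show cst M F = cst M G
      rw [hpat]
      exact congrArg Subtype.val h
    · rintro ⟨_, F, rfl⟩
      exact ⟨⟨cst M F, mem_range_self F⟩, hf F⟩
  let e1 : {i // i ∈ range (cst M)} ≃ {i // i ∈ range (cst N)} := Equiv.ofBijective f hfb
  have h2 : ∀ x, Nonempty ({a : {i // i ∉ range (cst M)} // p a.1 = x} ≃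
      {a : {i // i ∉ range (cst N)} // r a.1 = x}) := fun x => equiv_of_card (congrFun hn x)
  let e2 := fun x => Classical.choice (h2 x)
  let e3 : {i // i ∉ range (cst M)} ≃ {i // i ∉ range (cst N)} :=
    Equiv.ofFiberEquiv (f := fun a : {i // i ∉ range (cst M)} => p a.1)
      (g := fun a : {i // i ∉ range (cst N)} => r a.1) (fun x => e2 x)
  have he3 : ∀ a, r (e3 a).1 = p a.1 := fun a =>
    Equiv.ofFiberEquiv_map (f := fun a : {i // i ∉ range (cst M)} => p a.1)
      (g := fun a : {i // i ∉ range (cst N)} => r a.1) (fun x => e2 x) a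
  let σ : Equiv.Perm ℕ := Equiv.subtypeCongr e1 e3
  have hσ1 : ∀ F, σ (cst M F) = cst N F := by
    intro F
    have h3 : σ (cst M F) = (e1 ⟨cst M F, mem_range_self F⟩).1 := by
      show (Equiv.subtypeCongr e1 e3) _ = _
      unfold Equiv.subtypeCongr
      simp [Equiv.sumCompl_symm_apply_of_pos (p := fun i => i ∈ range (cst M))
        (mem_range_self F)]
    rw [h3]
    exact congrArg Subtype.val (hf F)
  have hσ2 : ∀ i (hi : i ∉ range (cst M)), σ i = (e3 ⟨i, hi⟩).1 := by
    intro i hi
    show (Equiv.subtypeCongr e1 e3) _ = _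
    unfold Equiv.subtypeCongr
    simp [Equiv.sumCompl_symm_apply_of_neg (p := fun i => i ∈ range (cst M)) hi]
  have hσ : ∀ i, r (σ i) = p i := by
    intro i
    by_cases hi : i ∈ range (cst M)
    · obtain ⟨F, rfl⟩ := hi
      rw [hσ1, hc]
    · rw [hσ2 i hi, he3]
  refine ⟨σ, σ.surjective, fun n F a => ?_, fun n R a => ?_⟩
  · cases n with
    | zero => rw [cst_eq, cst_eq, hσ1]
    | succ n => exact ((h0 n).false F).elim
  · rw [hp.rel, hr.rel]
    exact congrArg (Q.2 n R) (funext fun i => (hσ (a i)).symm)

theorem list_of_rel {C : Type} [Countable C] (K : Set (Str L ℕ)) (D : Str L ℕ → C → Prop)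
    (h1 : ∀ M ∈ K, ∃ c, D M c) (h2 : ∀ M N c, D M c → D N c → Iso M N) :
    ∃ f : ℕ → Str L ℕ, ∀ M ∈ K, ∃ n, Iso (f n) M := by
  classical
  obtain ⟨enc, henc⟩ := exists_injective_nat C
  let f : ℕ → Str L ℕ := fun n =>
    if h : ∃ M c, enc c = n ∧ D M c then h.choose else (fun _ _ _ => 0, fun _ _ _ => false)
  refine ⟨f, fun M hM => ?_⟩
  obtain ⟨c, hc⟩ := h1 M hM
  have h : ∃ M' c', enc c' = enc c ∧ D M' c' := ⟨M, c, rfl, hc⟩
  obtain ⟨c', hc', hD⟩ := h.choose_spec
  refine ⟨enc c, ?_⟩
  have h3 : f (enc c) = h.choose := dif_pos h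
  rw [h3]
  rw [henc hc'] at hD
  exact h2 _ _ _ hD hc

/-- perfect subsets of uncountable Borel sets -/
theorem perfect_borel {X : Type} [TopologicalSpace X] [PolishSpace X] {A : Set X}
    (hA : MeasurableSet[borel X] A) (hu : ¬ A.Countable) :
    ∃ f : (ℕ → Bool) → X, Continuous f ∧ Function.Injective f ∧ ∀ c, f c ∈ A := by
  let _ : MeasurableSpace X := borel X
  have : BorelSpace X := ⟨rfl⟩
  obtain ⟨t', ht', hp, hcl, -⟩ := MeasurableSet.isClopenable hA
  obtain ⟨f, hf1, hf2, hf3⟩ := @IsClosed.exists_nat_bool_injection_of_not_countable X t' hp A hcl hu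
  refine ⟨f, ?_, hf3, fun c => hf1 (mem_range_self c)⟩
  exact continuous_le_rng ht' hf2

section

variable (L)

/-- the structure on `ℕ` given by a finite structure -/
def std (k : ℕ) (Q : Str L (Fin (k + 1))) : Str L ℕ := pull Q (rm k) Fin.val

end

theorem std_strict (k : ℕ) (Q : Str L (Fin (k + 1))) : Strict (std L k Q) Q (rm k) :=
  pull_strict Q rm_val

theorem cont_std (k : ℕ) : Continuous (std L k) := by
  refine Continuous.prodMk ?_ ?_
  · refine continuous_pi fun n => continuous_pi fun F => continuous_pi fun a => ?_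
    have h1 : Continuous fun Q : Str L (Fin (k + 1)) => Q.1 n F (rm k ∘ a) :=
      (continuous_apply _).comp ((continuous_apply F).comp ((continuous_apply n).comp
        continuous_fst))
    have h2 : Continuous fun x : Fin (k + 1) => x.val := continuous_of_discreteTopology
    exact h2.comp h1
  · refine continuous_pi fun n => continuous_pi fun R => continuous_pi fun a => ?_
    exact (continuous_apply _).comp ((continuous_apply R).comp ((continuous_apply n).comp
        continuous_snd))

theorem open_red {k : ℕ} : IsOpen {Q : Str L (Fin (k + 1)) | Red Q} := by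
  have e : {Q : Str L (Fin (k + 1)) | Red Q} = ⋂ x, ⋂ y, {Q | Lz Q x y → x = y} := by
    ext Q
    simp only [mem_ofPred_eq, mem_iInter]
    rfl
  rw [e]
  refine isOpen_iInter_of_finite fun x => isOpen_iInter_of_finite fun y => ?_
  by_cases hxy : x = y
  · have : {Q : Str L (Fin (k + 1)) | Lz Q x y → x = y} = univ := by
      ext Q
      simp [hxy]
    rw [this]
    exact isOpen_univ
  · have : {Q : Str L (Fin (k + 1)) | Lz Q x y → x = y} =
        ⋃ n, ⋃ R : L.Relations n, ⋃ a : Fin n → Fin (k + 1), ⋃ i : Fin n,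
          {Q | Q.2 n R (Function.update a i x) = Q.2 n R (Function.update a i y)}ᶜ := by
      ext Q
      simp only [mem_ofPred_eq, mem_iUnion, mem_compl_iff]
      constructor
      · intro h
        by_contra h2
        push Not at h2
        exact hxy (h fun n R a i => h2 n R a i)
      · rintro ⟨n, R, a, i, h⟩ h2
        exact absurd (h2 n R a i) h
    rw [this]
    refine isOpen_iUnion fun n => isOpen_iUnion fun R => isOpen_iUnion fun a =>
      isOpen_iUnion fun i => ?_
    rw [isOpen_compl_iff]
    have hc : ∀ b : Fin n → Fin (k + 1), Continuous fun Q : Str L (Fin (k + 1)) => Q.2 n R b :=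
      fun b => (continuous_apply _).comp ((continuous_apply R).comp ((continuous_apply n).comp
        continuous_snd))
    exact isClosed_eq (hc _) (hc _)

theorem closed_iso {k : ℕ} (τ : Equiv.Perm (Fin (k + 1))) :
    IsClosed {q : Str L (Fin (k + 1)) × Str L (Fin (k + 1)) | Strict q.1 q.2 τ} := by
  have e : {q : Str L (Fin (k + 1)) × Str L (Fin (k + 1)) | Strict q.1 q.2 τ} =
      (⋂ n, ⋂ F : L.Functions n, ⋂ a : Fin n → Fin (k + 1),
        {q | τ (q.1.1 n F a) = q.2.1 n F (τ ∘ a)}) ∩
      (⋂ n, ⋂ R : L.Relations n, ⋂ a : Fin n → Fin (k + 1),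
        {q | q.1.2 n R a = q.2.2 n R (τ ∘ a)}) := by
    ext q
    simp only [mem_ofPred_eq, mem_inter_iff, mem_iInter]
    exact ⟨fun h => ⟨h.fn, h.rel⟩, fun h => ⟨τ.surjective, h.1, h.2⟩⟩
  rw [e]
  refine IsClosed.inter ?_ ?_
  · refine isClosed_iInter fun n => isClosed_iInter fun F => isClosed_iInter fun a => ?_
    have h1 : Continuous fun q : Str L (Fin (k + 1)) × Str L (Fin (k + 1)) => q.1.1 n F a :=
      (continuous_apply _).comp ((continuous_apply F).comp ((continuous_apply n).comp
        (continuous_fst.comp continuous_fst)))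
    have h2 : Continuous fun q : Str L (Fin (k + 1)) × Str L (Fin (k + 1)) => q.2.1 n F (τ ∘ a) :=
      (continuous_apply _).comp ((continuous_apply F).comp ((continuous_apply n).comp
        (continuous_fst.comp continuous_snd)))
    have h3 : Continuous fun x : Fin (k + 1) => τ x := continuous_of_discreteTopology
    exact isClosed_eq (h3.comp h1) h2
  · refine isClosed_iInter fun n => isClosed_iInter fun R => isClosed_iInter fun a => ?_
    have h1 : Continuous fun q : Str L (Fin (k + 1)) × Str L (Fin (k + 1)) => q.1.2 n R a :=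
      (continuous_apply _).comp ((continuous_apply R).comp ((continuous_apply n).comp
        (continuous_snd.comp continuous_fst)))
    have h2 : Continuous fun q : Str L (Fin (k + 1)) × Str L (Fin (k + 1)) => q.2.2 n R (τ ∘ a) :=
      (continuous_apply _).comp ((continuous_apply R).comp ((continuous_apply n).comp
        (continuous_snd.comp continuous_snd)))
    exact isClosed_eq h1 h2

/-- an isomorphism induces one of the reduced quotients -/
theorem iso_quot {I : Type} {M N : Str L ℕ} {Q Q' : Str L I} {p r : ℕ → I}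
    (hp : Strict M Q p) (hr : Strict N Q' r) (hQ : Red Q) (hQ' : Red Q') (h : Iso M N) :
    ∃ τ : Equiv.Perm I, Strict Q Q' τ := by
  obtain ⟨σ, hσ⟩ := h
  choose s hs using hp.surj
  choose s' hs' using hr.surj
  have key : ∀ i j, p i = p j ↔ r (σ i) = r (σ j) := by
    intro i j
    rw [← lz_over hp hQ, ← lz_over hr hQ', lz_iso hσ]
  let τ : Equiv.Perm I :=
    { toFun := fun x => r (σ (s x))
      invFun := fun y => p (σ.symm (s' y))
      left_inv := fun x => by
        have h1 : p (σ.symm (s' (r (σ (s x))))) = p (s x) := by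
          rw [key, σ.apply_symm_apply, hs']
        exact h1.trans (hs x)
      right_inv := fun y => by
        have h1 : r (σ (s (p (σ.symm (s' y))))) = r (σ (σ.symm (s' y))) := by
          rw [← key, hs]
        rw [σ.apply_symm_apply, hs'] at h1
        exact h1 }
  have hτ : ∀ i, τ (p i) = r (σ i) := by
    intro i
    show r (σ (s (p i))) = _
    rw [← key, hs]
  refine ⟨τ, τ.surjective, fun n F a => ?_, fun n R a => ?_⟩
  · have e : a = p ∘ (s ∘ a) := by
      funext i
      exact (hs _).symm
    rw [e, ← hp.fn, hτ, hσ.fn, hr.fn]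
    exact congrArg (Q'.1 n F) (funext fun i => (hτ _).symm)
  · have e : a = p ∘ (s ∘ a) := by
      funext i
      exact (hs _).symm
    rw [e, ← hp.rel, hσ.rel, hr.rel]
    exact congrArg (Q'.2 n R) (funext fun i => (hτ _).symm)

end Pool.Agent.Run7.h271.EF
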