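import Pool.Agent.Run7.h271.EF.Fin

set_option autoImplicit false

/-!
# The dichotomy for classes closed under strict surjective homomorphisms
-/

namespace Pool.Agent.Run7.h271.EF

open FirstOrder Set MeasureTheory

variable {L : FirstOrder.Language.{0, 0}}

theorem cF (hL : Countable L.Symbols) (n : ℕ) : Countable (L.Functions n) := by
  have hinj : Function.Injective (fun R : L.Functions n => (Sum.inl ⟨n, R⟩ : L.Symbols)) := by
    intro R R' h
    simpa using h
  exact hinj.countable

theorem cR (hL : Countable L.Symbols) (n : ℕ) : Countable (L.Relations n) := by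
  have hinj : Function.Injective (fun R : L.Relations n => (Sum.inr ⟨n, R⟩ : L.Symbols)) := by
    intro R R' h
    simpa using h
  exact hinj.countable

theorem pol (T : Type) [TopologicalSpace T] [SecondCountableTopology T]
    [TopologicalSpace.IsCompletelyMetrizableSpace T] : PolishSpace T := by
  have h : TopologicalSpace.SeparableSpace T := inferInstance
  infer_instance

theorem polish_fin (hL : Countable L.Symbols) (k : ℕ) : PolishSpace (Str L (Fin (k + 1))) := by
  have h1 := cF hL
  have h2 := cR hL
  exact pol _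

theorem main (hL : Countable L.Symbols) {K : Set (Str L ℕ)} (hB : MeasurableSet[borel _] K)
    (hK : StrictClosed K) :
    (∃ f : ℕ → Str L ℕ, ∀ M ∈ K, ∃ n, Iso (f n) M) ∨
    ∃ g : (ℕ → Bool) → Str L ℕ, Continuous g ∧ (∀ a, g a ∈ K) ∧ ∀ a b, Iso (g a) (g b) → a = b := by
  classical
  by_cases hne : K.Nonempty
  swap
  · left
    rw [Set.not_nonempty_iff_eq_empty] at hne
    exact ⟨fun _ => (fun _ _ _ => 0, fun _ _ _ => false), fun M hM => by simp [hne] at hM⟩
  by_cases hF : ∃ n, Nonempty (L.Functions (n + 1))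
  · obtain ⟨n, ⟨F⟩⟩ := hF
    obtain ⟨M, hM⟩ := hne
    exact Or.inr (caseF hK hM F)
  push Not at hF
  have h0 : ∀ n, IsEmpty (L.Functions (n + 1)) := hF
  by_cases hR : ∃ M ∈ K, Infinite (Quotient (lzs M))
  · obtain ⟨M, hM, hinf⟩ := hR
    exact Or.inr (caseR hK h0 hM hinf)
  push Not at hR
  have hfin : ∀ M ∈ K, Finite (Quotient (lzs M)) := fun M hM => by
    exact hR M hM
  by_cases hC : Infinite (L.Functions 0)
  · obtain ⟨M, hM⟩ := hne
    exact Or.inr (caseC hK h0 hC hM (hfin M hM))
  rw [not_infinite_iff_finite] at hC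
  -- the finite reduced structures
  let A : ∀ k, Set (Str L (Fin (k + 1))) := fun k => {Q | Red Q ∧ std L k Q ∈ K}
  have hA : ∀ k, MeasurableSet[borel _] (A k) := by
    intro k
    have h1 : MeasurableSet[borel _] {Q : Str L (Fin (k + 1)) | Red Q} :=
      MeasurableSpace.measurableSet_generateFrom open_red
    have h2 : Measurable[borel _, borel _] (std L k) := (cont_std k).borel_measurable
    exact MeasurableSet.inter h1 (h2 hB)
  by_cases hu : ∃ k, ¬ (A k).Countable
  · right
    obtain ⟨k, hk⟩ := hu
    have hP := polish_fin hL k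
    obtain ⟨f, hf1, hf2, hf3⟩ := perfect_borel (hA k) hk
    have han : AnalyticSet {p : (ℕ → Bool) × (ℕ → Bool) |
        ∃ τ : Equiv.Perm (Fin (k + 1)), Strict (f p.1) (f p.2) τ} := by
      have e : {p : (ℕ → Bool) × (ℕ → Bool) |
          ∃ τ : Equiv.Perm (Fin (k + 1)), Strict (f p.1) (f p.2) τ} =
          ⋃ τ : Equiv.Perm (Fin (k + 1)), {p | Strict (f p.1) (f p.2) τ} := by
        ext p
        simp
      rw [e]
      have hpp : PolishSpace ((ℕ → Bool) × (ℕ → Bool)) := pol _
      refine IsClosed.analyticSet (isClosed_iUnion_of_finite fun τ => ?_)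
      have h1 : Continuous fun p : (ℕ → Bool) × (ℕ → Bool) => (f p.1, f p.2) :=
        (hf1.comp continuous_fst).prodMk (hf1.comp continuous_snd)
      exact (closed_iso τ).preimage h1
    obtain ⟨h, hh1, hh2⟩ := H566W.perfect_independent
      (fun a b => ∃ τ : Equiv.Perm (Fin (k + 1)), Strict (f a) (f b) τ) han (fun a => by
        have h1 : {b | ∃ τ : Equiv.Perm (Fin (k + 1)), Strict (f a) (f b) τ} =
            ⋃ τ : Equiv.Perm (Fin (k + 1)), {b | Strict (f a) (f b) τ} := by
          ext b
          simp
        rw [h1]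
        refine Set.countable_iUnion fun τ => Set.Subsingleton.countable ?_
        intro b hb b' hb'
        apply hf2
        have e : ∀ {Q Q' : Str L (Fin (k + 1))}, Strict (f a) Q τ → Strict (f a) Q' τ → Q = Q' := by
          intro Q Q' h1 h2
          have hx : ∀ (n : ℕ) (x : Fin n → Fin (k + 1)), x = τ ∘ (τ.symm ∘ x) := fun n x => by
            funext i
            exact (τ.apply_symm_apply _).symm
          refine Prod.ext ?_ ?_
          · funext n F x
            rw [hx n x, ← h1.fn, ← h2.fn]
          · funext n R x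
            rw [hx n x, ← h1.rel, ← h2.rel]
        exact e hb hb')
    refine ⟨fun a => std L k (f (h a)), (cont_std k).comp (hf1.comp hh1), fun a => (hf3 _).2,
      fun a b hab => ?_⟩
    by_contra hne'
    exact hh2 a b hne' (iso_quot (std_strict k _) (std_strict k _) (hf3 _).1 (hf3 _).1 hab)
  · left
    push Not at hu
    let C : Type := Σ k : ℕ, {Q // Q ∈ A k} × Set (L.Functions 0 × L.Functions 0) ×
      (Fin (k + 1) → ℕ∞)
    have hc1 : ∀ k, Countable {Q // Q ∈ A k} := fun k => (hu k).to_subtype
    have hc2 : Countable (Set (L.Functions 0 × L.Functions 0)) := Finite.to_countable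
    have hc3 : Countable ℕ∞ := inferInstanceAs (Countable (Option ℕ))
    have hC' : Countable C := inferInstance
    refine list_of_rel K (fun M (c : C) => ∃ p, Strict M c.2.1.1 p ∧
      c.2.2.1 = {q | cst M q.1 = cst M q.2} ∧ c.2.2.2 = num M p) ?_ ?_
    · intro M hM
      obtain ⟨k, ⟨e⟩⟩ := finite_index (hfin M hM)
      have h1 : Strict M (tr e (quo M)) (e ∘ Quotient.mk (lzs M)) :=
        strict_comp (quo_strict h0 M) (tr_strict e _)
      refine ⟨⟨k, ⟨tr e (quo M), tr_red e (quo_red h0 M), cover hK h1 (std_strict k _) hM⟩,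
        {q | cst M q.1 = cst M q.2}, num M (e ∘ Quotient.mk (lzs M))⟩, _, h1, rfl, rfl⟩
    · rintro M N ⟨k, Q, S, m⟩ ⟨p, hp1, hp2, hp3⟩ ⟨r, hr1, hr2, hr3⟩
      refine iso_over h0 hp1 hr1 (fun F G => ?_) (hp3.symm.trans hr3)
      have h1 : ((F, G) ∈ S ↔ cst M F = cst M G) := by
        have : S = {q | cst M q.1 = cst M q.2} := hp2
        rw [this]
        rfl
      have h2 : ((F, G) ∈ S ↔ cst N F = cst N G) := by
        have : S = {q | cst N q.1 = cst N q.2} := hr2
        rw [this]
        rfl
      exact h1.symm.trans h2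

end Pool.Agent.Run7.h271.EF
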